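import Pool.Agent.Helper35.CL.StA

/-! Project CL (helper35), module CN: continuity on `M × (-∞,0)`. -/

set_option autoImplicit false

namespace Helper72.CL

open Pool.Agent.Helper35.CL Helper32.CL Helper35.PI Helper35.PI2
open scoped ContDiff Manifold Topology ENNReal BigOperators
open MeasureTheory Set Filter

theorem hCN (hML : StML) : StCN := by
  intro N M _ _ _ F hF
  have hsm : (cφ (fun _ => 0)).Smooth :=
    ⟨contDiff_const, contDiff_const, contDiff_const, contDiff_const⟩
  have hml := fun l : ℝ => hML 2 N M F hF 0 l (cφ (fun _ => 0)) hsm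
  have hF0 : CST (fun q t => F q t) := hF.smooth.continuousOn
  have hw : ∀ l : ℝ, CST (fun q t => wvF 2 l F q t) := fun l => (hml l).2.2.2.1
  have hH : CST (fun q t => HH (n := 2) F q t) := by
    have h1 : CST (fun q t => wvF 2 1 F q t - wvF 2 0 F q t) := (hw 1).sub (hw 0)
    refine h1.congr ?_
    rintro ⟨q, t⟩ ht
    have ht0 : t < 0 := ht.2
    have h2 := ((hml 1).2.2.2.2.2.2.2 q t ht0).1
    show HH (n := 2) F q t = wvF 2 1 F q t - wvF 2 0 F q t
    rw [h2, one_smul, add_sub_cancel_left]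
  refine ⟨hF0, hH, ?_, ?_⟩
  · have h1 : CST (fun q t => i4F 2 0 F q t) := (hml 0).2.2.1
    exact continuous_fst.comp_continuousOn h1
  · intro l hl
    have hl' : ContinuousOn (fun z : M × ℝ => l z.2) (univ ×ˢ Iio 0) :=
      hl.comp continuous_snd.continuousOn (fun z hz => hz.2)
    have h1 : ContinuousOn (fun z : M × ℝ => wvF 2 0 F z.1 z.2 + l z.2 • HH (n := 2) F z.1 z.2)
        (univ ×ˢ Iio 0) := (hw 0).add (hl'.smul hH)
    refine h1.congr ?_
    rintro ⟨q, t⟩ ht
    exact ((hml (l t)).2.2.2.2.2.2.2 q t ht.2).1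

end Helper72.CL
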